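import Pool.Agent.Q237.PL.Gl

/-!
# Project PL: the square sum of the expectation of `B⁻¹ ^ De`
-/

set_option autoImplicit false

namespace Pool.Agent.Q237.PL.Bl

open Finset Pool.Agent.Q295.PN

section norm

variable {ι : Type} [Fintype ι]

/-- weighted euclidean norm -/
noncomputable def nm (p : ℝ) (f : ι → ℝ) : ℝ := Real.sqrt (p * ∑ x, (f x) ^ 2)

theorem nm_nonneg (p : ℝ) (f : ι → ℝ) : 0 ≤ nm p f := Real.sqrt_nonneg _

theorem nm_eq {p : ℝ} (hp : 0 ≤ p) (f : ι → ℝ) :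
    nm p f = Real.sqrt p * ‖(WithLp.toLp 2 f : EuclideanSpace ℝ ι)‖ := by
  unfold nm
  rw [Real.sqrt_mul hp, EuclideanSpace.norm_eq]
  have : ∑ x, (f x) ^ 2 = ∑ i, ‖(WithLp.toLp 2 f : EuclideanSpace ℝ ι) i‖ ^ 2 :=
    sum_congr rfl fun x _ => by simp
  rw [this]

theorem nm_add {p : ℝ} (hp : 0 ≤ p) (f g : ι → ℝ) :
    nm p (fun x => f x + g x) ≤ nm p f + nm p g := by
  rw [nm_eq hp, nm_eq hp, nm_eq hp, ← mul_add]
  refine mul_le_mul_of_nonneg_left ?_ (Real.sqrt_nonneg _)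
  exact norm_add_le (WithLp.toLp 2 f : EuclideanSpace ℝ ι) (WithLp.toLp 2 g)

theorem nm_smul {p : ℝ} {c : ℝ} (hc : 0 ≤ c) (f : ι → ℝ) :
    nm p (fun x => c * f x) = c * nm p f := by
  unfold nm
  have : p * ∑ x, (c * f x) ^ 2 = c ^ 2 * (p * ∑ x, (f x) ^ 2) := by
    rw [mul_sum, mul_sum, mul_sum]
    exact sum_congr rfl fun x _ => by ring
  rw [this, Real.sqrt_mul (sq_nonneg c), Real.sqrt_sq hc]

theorem nm_mono {p : ℝ} (hp : 0 ≤ p) {f g : ι → ℝ} (h0 : ∀ x, 0 ≤ f x) (h : ∀ x, f x ≤ g x) :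
    nm p f ≤ nm p g := by
  unfold nm
  refine Real.sqrt_le_sqrt (mul_le_mul_of_nonneg_left (sum_le_sum fun x _ => ?_) hp)
  exact pow_le_pow_left₀ (h0 x) (h x) 2

theorem nm_sum {p : ℝ} (hp : 0 ≤ p) (s : Finset ℕ) (f : ℕ → ι → ℝ) :
    nm p (fun x => ∑ i ∈ s, f i x) ≤ ∑ i ∈ s, nm p (f i) := by
  induction s using Finset.induction_on with
  | empty => simp [nm]
  | insert a s ha ih =>
    rw [sum_insert ha]
    have h1 : (fun x => ∑ i ∈ insert a s, f i x) = fun x => f a x + ∑ i ∈ s, f i x := by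
      funext x
      rw [sum_insert ha]
    rw [h1]
    have h2 := nm_add hp (f a) (fun x => ∑ i ∈ s, f i x)
    linarith

theorem nm_itk (hS : S_SC) {p : ℝ} (hp : 0 ≤ p) (k : ι → ι → ℝ) {v : ℝ} (f : ι → ℝ) (i : ℕ)
    (hv : 0 ≤ v) (hk : ∀ x z, 0 ≤ k x z) (h1 : ∀ x, ∑ z, k x z ≤ v) (h2 : ∀ z, ∑ x, k x z ≤ v) :
    nm p (itk k f i) ≤ v ^ i * nm p f := by
  have h := hS ι k v f i hv hk h1 h2
  unfold nm
  have h3 : v ^ i * Real.sqrt (p * ∑ x, (f x) ^ 2) =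
      Real.sqrt ((v ^ i) ^ 2 * (p * ∑ x, (f x) ^ 2)) := by
    rw [Real.sqrt_mul (sq_nonneg _), Real.sqrt_sq (pow_nonneg hv i)]
  rw [h3]
  refine Real.sqrt_le_sqrt ?_
  calc p * ∑ x, (itk k f i x) ^ 2 ≤ p * ((v ^ i) ^ 2 * ∑ x, (f x) ^ 2) :=
        mul_le_mul_of_nonneg_left h hp
    _ = _ := by ring

theorem nm_ak (hS : S_SC) {p : ℝ} (hp : 0 ≤ p) (k : ι → ι → ℝ) {v : ℝ} (f : ι → ℝ)
    (hv : 0 ≤ v) (hk : ∀ x z, 0 ≤ k x z) (h1 : ∀ x, ∑ z, k x z ≤ v) (h2 : ∀ z, ∑ x, k x z ≤ v) :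
    nm p (ak k f) ≤ v * nm p f := by
  have h := nm_itk hS hp k f 1 hv hk h1 h2
  rw [pow_one] at h
  exact h

end norm

section prob

variable {ι : Type} [Fintype ι] [DecidableEq ι]

theorem Ex_const (p c : ℝ) : Ex p (fun _ : ι → Bool => c) = c := by
  have h := Gl.Ex_closed (ι := ι) p ∅
  simp only [notMem_empty, false_imp_iff, implies_true, if_true, card_empty, pow_zero] at h
  unfold Ex at h ⊢
  simp only [mul_one] at h
  rw [← sum_mul, h, one_mul]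

theorem Ex_add (p : ℝ) (f g : (ι → Bool) → ℝ) :
    Ex p (fun κ => f κ + g κ) = Ex p f + Ex p g := by
  unfold Ex
  rw [← sum_add_distrib]
  exact sum_congr rfl fun κ _ => by ring

theorem Ex_sum (p : ℝ) (s : Finset ℕ) (c : ℕ → ℝ) (f : ℕ → (ι → Bool) → ℝ) :
    Ex p (fun κ => ∑ j ∈ s, c j * f j κ) = ∑ j ∈ s, c j * Ex p (f j) := by
  unfold Ex
  simp only [mul_sum]
  rw [sum_comm]
  exact sum_congr rfl fun j _ => sum_congr rfl fun κ _ => by ring

theorem Pr_nonneg {p : ℝ} (hp : 0 ≤ p) (hp1 : p ≤ 1) (E : (ι → Bool) → Prop) : 0 ≤ Pr p E := by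
  classical
  unfold Pr Ex
  refine sum_nonneg fun κ _ => mul_nonneg (Gl.wt_nonneg hp hp1 κ) ?_
  show (0 : ℝ) ≤ if E κ then 1 else 0
  split_ifs <;> norm_num

theorem Pr_union {p : ℝ} (hp : 0 ≤ p) (hp1 : p ≤ 1) (E E1 E2 E3 : (ι → Bool) → Prop)
    (h : ∀ κ, E κ → E1 κ ∨ E2 κ ∨ E3 κ) : Pr p E ≤ Pr p E1 + Pr p E2 + Pr p E3 := by
  classical
  unfold Pr
  rw [← Ex_add, ← Ex_add]
  refine Gl.Ex_mono hp hp1 fun κ => ?_
  by_cases hE : E κ
  · rw [if_pos hE]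
    rcases h κ hE with h1 | h1 | h1
    · rw [if_pos h1]
      split_ifs <;> norm_num
    · rw [if_pos h1]
      split_ifs <;> norm_num
    · rw [if_pos h1]
      split_ifs <;> norm_num
  · rw [if_neg hE]
    split_ifs <;> norm_num

end prob

theorem geo {v : ℝ} (hv : 0 ≤ v) (hv32 : 32 * v ≤ 1) (M : ℕ) :
    0 ≤ ∑ i ∈ range M, v ^ i ∧ ∑ i ∈ range M, v ^ i ≤ 32 / 31 := by
  have h := geom_sum_mul_neg v M
  have h0 : 0 ≤ ∑ i ∈ range M, v ^ i := sum_nonneg fun i _ => pow_nonneg hv i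
  have h1 : 0 ≤ v ^ M := pow_nonneg hv M
  refine ⟨h0, ?_⟩
  nlinarith

theorem geo' (v : ℝ) (M : ℕ) : ∑ m ∈ Icc 1 M, v ^ m = v * ∑ i ∈ range M, v ^ i := by
  induction M with
  | zero => simp
  | succ M ih =>
    rw [sum_Icc_succ_top (by omega), ih, sum_range_succ, mul_add, pow_succ']

theorem bl : S_BL := by
  intro hMC hDE hSC ι _ _ _ p α T v vT B e M J hp hp1 hα hα1 hM hpM hv hv32 hvT r1 c1 r2 c2 hB he
    HF HB
  classical
  have hp0 := hp.le
  have hp1' := hp1.le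
  have hkk : ∀ c : ℝ, ∀ x z : ι, 0 ≤ kk p c x z := by
    intro c x z
    unfold kk
    split_ifs
    · exact hp0
    · exact le_rfl
  have hrr : ∀ (j : ℕ) (x : ι), 0 ≤ rr p j x := fun j x => Pr_nonneg hp0 hp1' _
  obtain ⟨E, hE⟩ : ∃ E : ℝ, E = p * Fintype.card ι * (1 + p * Fintype.card ι) * Real.exp (-T) :=
    ⟨_, rfl⟩
  have hE0 : 0 ≤ E := by rw [hE]; positivity
  simp only [← hE] at HF HB he
  have hvM : 0 ≤ v ^ M := pow_nonneg hv M
  have hPL := Pr_nonneg hp0 hp1' (fun κ : ι → Bool => Lc κ ≤ 2 * M + J)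
  have he0 : 0 ≤ e := by linarith
  -- the kernels
  obtain ⟨F, hF⟩ : ∃ F : ℕ → ι → ℝ, F = fun i => itk (kk p (2 * α)) (ak (kk p T) (rr p 0)) i :=
    ⟨_, rfl⟩
  obtain ⟨F', hF'⟩ : ∃ F' : ℕ → ι → ℝ,
    F' = fun m => itk (kk p (2 * α)) (fun z : ι => rr p 0 z + rr p 1 z) m := ⟨_, rfl⟩
  obtain ⟨D, hD⟩ : ∃ D : ℕ → ι → ℝ, D = fun i => itk (fun a b => kk p (2 * α) b a)
      (ak (fun a b => kk p T b a) (rr p 0)) i := ⟨_, rfl⟩
  obtain ⟨D', hD'⟩ : ∃ D' : ℕ → ι → ℝ, D' = fun m => itk (fun a b => kk p (2 * α) b a)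
      (fun z : ι => rr p 0 z + rr p 1 z) m := ⟨_, rfl⟩
  obtain ⟨a, ha⟩ : ∃ a : ℕ → ℝ, a = fun j => nm p (fun x : ι => rr p j x) := ⟨_, rfl⟩
  obtain ⟨o, ho⟩ : ∃ o : ℝ, o = nm p (fun _ : ι => (1 : ℝ)) := ⟨_, rfl⟩
  have ha0 : ∀ j, 0 ≤ a j := fun j => by rw [ha]; exact nm_nonneg _ _
  have ho0 : 0 ≤ o := by rw [ho]; exact nm_nonneg _ _
  -- pointwise inequality
  have hpt : ∀ j ≤ J, ∀ x : ι, rr p (j + 1) x ≤ ((4 * M / α * rr p j x +
      2 / α * ((∑ i ∈ range M, F i x) + ∑ i ∈ range M, D i x)) +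
      2 * ((∑ m ∈ Icc 1 M, F' m x) + ∑ m ∈ Icc 1 M, D' m x)) + e * 1 := by
    intro j hj x
    have u0 : rr p (j + 1) x ≤ Pr p (fun κ => De x κ = j + 1 ∧ M ≤ Fw x κ) +
        Pr p (fun κ => De x κ = j + 1 ∧ M ≤ Bw x κ) +
        Pr p (fun κ : ι → Bool => Lc κ ≤ 2 * M + J) := by
      refine Pr_union hp0 hp1' _ _ _ _ fun κ hκ => ?_
      by_cases h1 : M ≤ Fw x κ
      · exact Or.inl ⟨hκ, h1⟩
      by_cases h2 : M ≤ Bw x κ
      · exact Or.inr (Or.inl ⟨hκ, h2⟩)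
      refine Or.inr (Or.inr ?_)
      have h3 : Lc κ ≤ mc ((op κ).erase x) + 1 := by
        refine le_trans ?_ ((hMC ι).2.1 ((op κ).erase x) x)
        refine (hMC ι).1 _ _ ?_
        intro y hy
        by_cases hyx : y = x
        · rw [hyx]
          exact mem_insert_self _ _
        · exact mem_insert_of_mem (mem_erase.2 ⟨hyx, hy⟩)
      have h4 := (hDE hMC ι x κ).1
      have h5 : De x κ = mc ((op κ).erase x) - (Fw x κ + Bw x κ) := rfl
      show Lc κ ≤ 2 * M + J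
      omega
    have h1 := HF j x
    have h2 := HB j x
    have q1 := Pr_nonneg hp0 hp1' (fun κ : ι → Bool => De x κ = j + 1 ∧ M ≤ Fw x κ)
    have q2 := Pr_nonneg hp0 hp1' (fun κ : ι → Bool => De x κ = j + 1 ∧ M ≤ Bw x κ)
    have w1 : 1 / 2 * Pr p (fun κ : ι → Bool => De x κ = j + 1 ∧ M ≤ Fw x κ) ≤
        (1 - p) ^ (M + 1) * Pr p (fun κ : ι → Bool => De x κ = j + 1 ∧ M ≤ Fw x κ) :=
      mul_le_mul_of_nonneg_right hpM q1
    have w2 : 1 / 2 * Pr p (fun κ : ι → Bool => De x κ = j + 1 ∧ M ≤ Bw x κ) ≤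
        (1 - p) ^ (M + 1) * Pr p (fun κ : ι → Bool => De x κ = j + 1 ∧ M ≤ Bw x κ) :=
      mul_le_mul_of_nonneg_right hpM q2
    have k1 : ∑ i ∈ range M, F i x =
        ∑ i ∈ range M, itk (kk p (2 * α)) (ak (kk p T) (rr p 0)) i x := by rw [hF]
    have k2 : ∑ m ∈ Icc 1 M, F' m x =
        ∑ m ∈ Icc 1 M, itk (kk p (2 * α)) (fun z : ι => rr p 0 z + rr p 1 z) m x := by rw [hF']
    have k3 : ∑ i ∈ range M, D i x = ∑ i ∈ range M, itk (fun a b => kk p (2 * α) b a)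
        (ak (fun a b => kk p T b a) (rr p 0)) i x := by rw [hD]
    have k4 : ∑ m ∈ Icc 1 M, D' m x = ∑ m ∈ Icc 1 M, itk (fun a b => kk p (2 * α) b a)
        (fun z : ι => rr p 0 z + rr p 1 z) m x := by rw [hD']
    rw [← k1, ← k2] at h1
    rw [← k3, ← k4] at h2
    have e1 : 4 * (M : ℝ) / α * rr p j x = 4 * ((M : ℝ) / α * rr p j x) := by ring
    have e2 : 2 / α * ((∑ i ∈ range M, F i x) + ∑ i ∈ range M, D i x) =
        2 * (1 / α * ∑ i ∈ range M, F i x) + 2 * (1 / α * ∑ i ∈ range M, D i x) := by ring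
    rw [e1, e2]
    linarith
  -- norms of the kernels
  obtain ⟨S, hS⟩ : ∃ S : ℝ, S = ∑ i ∈ range M, v ^ i := ⟨_, rfl⟩
  have hS0 : 0 ≤ S := by rw [hS]; exact (geo hv hv32 M).1
  have hS1 : S ≤ 32 / 31 := by rw [hS]; exact (geo hv hv32 M).2
  have n01 : nm p (fun z : ι => rr p 0 z + rr p 1 z) ≤ a 0 + a 1 := by
    rw [ha]
    exact nm_add hp0 _ _
  have nF : nm p (fun x => ∑ i ∈ range M, F i x) ≤ S * (vT * a 0) := by
    refine (nm_sum hp0 _ _).trans ?_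
    rw [hS, sum_mul]
    refine sum_le_sum fun i _ => ?_
    rw [hF]
    refine (nm_itk hSC hp0 _ _ i hv (hkk _) r1 c1).trans ?_
    refine mul_le_mul_of_nonneg_left ?_ (pow_nonneg hv i)
    rw [ha]
    exact nm_ak hSC hp0 _ _ hvT (hkk _) r2 c2
  have nD : nm p (fun x => ∑ i ∈ range M, D i x) ≤ S * (vT * a 0) := by
    refine (nm_sum hp0 _ _).trans ?_
    rw [hS, sum_mul]
    refine sum_le_sum fun i _ => ?_
    rw [hD]
    refine (nm_itk hSC hp0 _ _ i hv (fun x z => hkk _ z x) c1 r1).trans ?_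
    refine mul_le_mul_of_nonneg_left ?_ (pow_nonneg hv i)
    rw [ha]
    exact nm_ak hSC hp0 _ _ hvT (fun x z => hkk _ z x) c2 r2
  have nF' : nm p (fun x => ∑ m ∈ Icc 1 M, F' m x) ≤ (v * S) * (a 0 + a 1) := by
    refine (nm_sum hp0 _ _).trans ?_
    rw [hS, ← geo', sum_mul]
    refine sum_le_sum fun i _ => ?_
    rw [hF']
    refine (nm_itk hSC hp0 _ _ i hv (hkk _) r1 c1).trans ?_
    exact mul_le_mul_of_nonneg_left n01 (pow_nonneg hv i)
  have nD' : nm p (fun x => ∑ m ∈ Icc 1 M, D' m x) ≤ (v * S) * (a 0 + a 1) := by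
    refine (nm_sum hp0 _ _).trans ?_
    rw [hS, ← geo', sum_mul]
    refine sum_le_sum fun i _ => ?_
    rw [hD']
    refine (nm_itk hSC hp0 _ _ i hv (fun x z => hkk _ z x) c1 r1).trans ?_
    exact mul_le_mul_of_nonneg_left n01 (pow_nonneg hv i)
  -- the recursion
  obtain ⟨m, hm⟩ : ∃ m : ℝ, m = (M : ℝ) / α := ⟨_, rfl⟩
  obtain ⟨t, ht⟩ : ∃ t : ℝ, t = vT / α := ⟨_, rfl⟩
  obtain ⟨u, hu⟩ : ∃ u : ℝ, u = 1 / α := ⟨_, rfl⟩
  have hm0 : 0 ≤ m := by rw [hm]; positivity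
  have ht0 : 0 ≤ t := by rw [ht]; positivity
  have hu1 : 1 ≤ u := by rw [hu, le_div_iff₀ hα]; linarith
  have hvS : v * S ≤ 1 / 31 := by nlinarith
  have hvS0 : 0 ≤ v * S := mul_nonneg hv hS0
  have hrec : ∀ j ≤ J, a (j + 1) ≤ 4 * m * a j + 8 * t * a 0 + 4 / 31 * (a 0 + a 1) + e * o := by
    intro j hj
    have h1 : a (j + 1) ≤ nm p (fun x : ι => ((4 * M / α * rr p j x +
      2 / α * ((∑ i ∈ range M, F i x) + ∑ i ∈ range M, D i x)) +
      2 * ((∑ m ∈ Icc 1 M, F' m x) + ∑ m ∈ Icc 1 M, D' m x)) + e * 1) := by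
      rw [ha]
      exact nm_mono hp0 (hrr (j + 1)) (hpt j hj)
    have h2 := nm_add hp0 (fun x : ι => (4 * M / α * rr p j x +
      2 / α * ((∑ i ∈ range M, F i x) + ∑ i ∈ range M, D i x)) +
      2 * ((∑ m ∈ Icc 1 M, F' m x) + ∑ m ∈ Icc 1 M, D' m x)) (fun _ : ι => e * 1)
    have h3 := nm_add hp0 (fun x : ι => 4 * M / α * rr p j x +
      2 / α * ((∑ i ∈ range M, F i x) + ∑ i ∈ range M, D i x))
      (fun x : ι => 2 * ((∑ m ∈ Icc 1 M, F' m x) + ∑ m ∈ Icc 1 M, D' m x))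
    have h4 := nm_add hp0 (fun x : ι => 4 * M / α * rr p j x)
      (fun x : ι => 2 / α * ((∑ i ∈ range M, F i x) + ∑ i ∈ range M, D i x))
    have h5 : nm p (fun _ : ι => e * 1) = e * o := by
      rw [ho]
      exact nm_smul he0 (fun _ => 1)
    have h6 : nm p (fun x : ι => 4 * M / α * rr p j x) = 4 * M / α * a j := by
      rw [ha]
      exact nm_smul (by positivity) (fun x => rr p j x)
    have h7 : nm p (fun x : ι => 2 / α * ((∑ i ∈ range M, F i x) + ∑ i ∈ range M, D i x)) ≤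
        2 / α * (S * (vT * a 0) + S * (vT * a 0)) := by
      rw [nm_smul (by positivity) (fun x : ι => (∑ i ∈ range M, F i x) + ∑ i ∈ range M, D i x)]
      refine mul_le_mul_of_nonneg_left ?_ (by positivity)
      exact (nm_add hp0 _ _).trans (add_le_add nF nD)
    have h8 : nm p (fun x : ι => 2 * ((∑ m ∈ Icc 1 M, F' m x) + ∑ m ∈ Icc 1 M, D' m x)) ≤
        2 * ((v * S) * (a 0 + a 1) + (v * S) * (a 0 + a 1)) := by
      rw [nm_smul (by norm_num) (fun x : ι => (∑ m ∈ Icc 1 M, F' m x) + ∑ m ∈ Icc 1 M, D' m x)]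
      refine mul_le_mul_of_nonneg_left ?_ (by norm_num)
      exact (nm_add hp0 _ _).trans (add_le_add nF' nD')
    have h9 : 2 / α * (S * (vT * a 0) + S * (vT * a 0)) ≤ 8 * t * a 0 := by
      have g1 : 2 / α * (S * (vT * a 0) + S * (vT * a 0)) = 4 * t * a 0 * S := by
        rw [ht]
        ring
      rw [g1]
      have g2 : 0 ≤ t * a 0 := mul_nonneg ht0 (ha0 0)
      nlinarith
    have h10 : 2 * ((v * S) * (a 0 + a 1) + (v * S) * (a 0 + a 1)) ≤ 4 / 31 * (a 0 + a 1) := by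
      have g1 : (v * S) * (a 0 + a 1) ≤ 1 / 31 * (a 0 + a 1) :=
        mul_le_mul_of_nonneg_right hvS (add_nonneg (ha0 0) (ha0 1))
      linarith
    have h11 : 4 * (M : ℝ) / α * a j = 4 * m * a j := by
      rw [hm]
      ring
    rw [h11] at h6
    linarith
  obtain ⟨G, hG⟩ : ∃ G : ℝ, G = 16 * (m + t + u) := ⟨_, rfl⟩
  have hG16 : 16 ≤ G := by rw [hG]; linarith
  have heo : 0 ≤ e * o := mul_nonneg he0 ho0
  have h1 : a 1 ≤ G * a 0 + 2 * (e * o) := by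
    have h := hrec 0 (Nat.zero_le _)
    rw [zero_add] at h
    have g1 : (4 * m + 8 * t + 4 / 31) * a 0 ≤ (27 / 31 * G) * a 0 := by
      refine mul_le_mul_of_nonneg_right ?_ (ha0 0)
      rw [hG]
      linarith
    linarith
  obtain ⟨A, hA⟩ : ∃ A : ℝ, A = a 0 + e * o := ⟨_, rfl⟩
  have hA0 : 0 ≤ A := by rw [hA]; exact add_nonneg (ha0 0) heo
  have hind : ∀ j, j ≤ J → a j ≤ (2 * G) ^ j * A := by
    intro j
    induction j with
    | zero =>
      intro _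
      rw [pow_zero, one_mul, hA]
      linarith
    | succ j ih =>
      intro hj
      have i1 := ih (by omega)
      have i2 := hrec j (by omega)
      have i3 : 1 ≤ (2 * G) ^ j := one_le_pow₀ (by linarith)
      obtain ⟨Q, hQ⟩ : ∃ Q : ℝ, Q = (2 * G) ^ j * A := ⟨_, rfl⟩
      rw [← hQ] at i1
      have i4 : A ≤ Q := by
        rw [hQ]
        nlinarith
      have i5 : 4 * m * a j ≤ G / 4 * Q := by
        have : 4 * m ≤ G / 4 := by rw [hG]; linarith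
        exact mul_le_mul this i1 (ha0 j) (by linarith)
      have i6 : a 0 ≤ Q := by rw [hA] at i4; linarith
      have i6' : e * o ≤ Q := by
        have := ha0 0
        rw [hA] at i4
        linarith
      have i7 : 8 * t * a 0 ≤ G / 2 * Q := by
        have : 8 * t ≤ G / 2 := by rw [hG]; linarith
        exact mul_le_mul this i6 (ha0 0) (by linarith)
      have i8 : G * a 0 ≤ G * Q := mul_le_mul_of_nonneg_left i6 (by linarith)
      have i9 : 16 * Q ≤ G * Q := mul_le_mul_of_nonneg_right hG16 (by linarith [ha0 0])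
      have i10 : (2 * G) ^ (j + 1) * A = 2 * (G * Q) := by
        rw [hQ, pow_succ]
        ring
      rw [i10]
      have i11 : G / 4 * Q = G * Q / 4 := by ring
      have i12 : G / 2 * Q = G * Q / 2 := by ring
      rw [i11] at i5
      rw [i12] at i7
      linarith
  -- the final estimate
  have hB4 : 4 * G ≤ B := by
    refine le_trans (le_of_eq ?_) hB
    rw [hG, hm, ht, hu]
    ring
  have hBpos : 0 < B := by linarith
  obtain ⟨b, hb⟩ : ∃ b : ℝ, b = B⁻¹ := ⟨_, rfl⟩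
  have hb0 : 0 ≤ b := by rw [hb]; positivity
  have hb1 : b * (2 * G) ≤ 1 / 2 := by
    rw [hb, inv_mul_le_iff₀ hBpos]
    linarith
  have hb2 : b ≤ 1 := by
    rw [hb]
    exact inv_le_one_of_one_le₀ (by linarith)
  rw [← hb]
  have hfin : ∀ x : ι, Ex p (fun κ => b ^ (De x κ)) ≤
      (∑ j ∈ range (J + 1), b ^ j * rr p j x) + b ^ J * 1 := by
    intro x
    have g1 : ∀ κ : ι → Bool, b ^ (De x κ) ≤ (∑ j ∈ range (J + 1), b ^ j *
        (if De x κ = j then (1 : ℝ) else 0)) + b ^ J := by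
      intro κ
      have g2 : ∀ j ∈ range (J + 1), 0 ≤ b ^ j * (if De x κ = j then (1 : ℝ) else 0) := by
        intro j _
        refine mul_nonneg (pow_nonneg hb0 j) ?_
        split_ifs <;> norm_num
      have g3 : 0 ≤ b ^ J := pow_nonneg hb0 J
      by_cases h : De x κ ≤ J
      · have g4 := single_le_sum g2 (mem_range.2 (Nat.lt_succ_of_le h))
        rw [if_pos rfl, mul_one] at g4
        linarith
      · have g4 : b ^ (De x κ) ≤ b ^ J := pow_le_pow_of_le_one hb0 hb2 (by omega)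
        have g5 := sum_nonneg g2
        linarith
    refine (Gl.Ex_mono hp0 hp1' g1).trans ?_
    rw [Ex_add, Ex_const, Ex_sum p (range (J + 1)) (fun j => b ^ j)
      (fun j κ => if De x κ = j then (1 : ℝ) else 0), mul_one]
    refine add_le_add_left (le_of_eq (sum_congr rfl fun j _ => ?_)) _
    congr 1
    unfold rr Pr
    refine congrArg (Ex p) (funext fun κ => ?_)
    by_cases h : De x κ = j
    · rw [if_pos h, if_pos h]
    · rw [if_neg h, if_neg h]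
  have hfn : nm p (fun x : ι => Ex p (fun κ => b ^ (De x κ))) ≤ 2 * A + b ^ J * o := by
    have g0 : ∀ x : ι, 0 ≤ Ex p (fun κ => b ^ (De x κ)) := by
      intro x
      unfold Ex
      exact sum_nonneg fun κ _ => mul_nonneg (Gl.wt_nonneg hp0 hp1' κ) (pow_nonneg hb0 _)
    refine (nm_mono hp0 g0 hfin).trans ?_
    refine (nm_add hp0 (fun x : ι => ∑ j ∈ range (J + 1), b ^ j * rr p j x)
      (fun _ : ι => b ^ J * 1)).trans ?_
    have g1 : nm p (fun _ : ι => b ^ J * 1) = b ^ J * o := by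
      rw [ho]
      exact nm_smul (pow_nonneg hb0 J) (fun _ => 1)
    have g2 : nm p (fun x : ι => ∑ j ∈ range (J + 1), b ^ j * rr p j x) ≤ 2 * A := by
      refine (nm_sum hp0 _ (fun j x => b ^ j * rr p j x)).trans ?_
      have g3 : ∀ j ∈ range (J + 1), nm p (fun x : ι => b ^ j * rr p j x) ≤ (1 / 2) ^ j * A := by
        intro j hj
        rw [mem_range] at hj
        have g4 := hind j (by omega)
        rw [nm_smul (pow_nonneg hb0 j) (fun x : ι => rr p j x)]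
        have g5 : nm p (fun x : ι => rr p j x) = a j := by rw [ha]
        rw [g5]
        calc b ^ j * a j ≤ b ^ j * ((2 * G) ^ j * A) :=
              mul_le_mul_of_nonneg_left g4 (pow_nonneg hb0 j)
          _ = (b * (2 * G)) ^ j * A := by rw [mul_pow]; ring
          _ ≤ (1 / 2) ^ j * A := by
              refine mul_le_mul_of_nonneg_right ?_ hA0
              exact pow_le_pow_left₀ (mul_nonneg hb0 (by linarith)) hb1 j
      refine (sum_le_sum g3).trans ?_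
      rw [← sum_mul]
      exact mul_le_mul_of_nonneg_right (sum_geometric_two_le (J + 1)) hA0
    linarith
  -- squares
  have s1 : p * ∑ x : ι, (Ex p (fun κ => b ^ (De x κ))) ^ 2 =
      (nm p (fun x : ι => Ex p (fun κ => b ^ (De x κ)))) ^ 2 := by
    unfold nm
    rw [Real.sq_sqrt]
    exact mul_nonneg hp0 (sum_nonneg fun x _ => sq_nonneg _)
  have s2 : p * ∑ x : ι, (rr p 0 x) ^ 2 = (a 0) ^ 2 := by
    rw [ha]
    unfold nm
    rw [Real.sq_sqrt]
    exact mul_nonneg hp0 (sum_nonneg fun x _ => sq_nonneg _)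
  have s3 : p * (Fintype.card ι : ℝ) = o ^ 2 := by
    rw [ho]
    unfold nm
    rw [Real.sq_sqrt]
    · simp
    · exact mul_nonneg hp0 (sum_nonneg fun x _ => sq_nonneg _)
  rw [s1, s2, s3]
  have s4 : (nm p (fun x : ι => Ex p (fun κ => b ^ (De x κ)))) ^ 2 ≤ (2 * A + b ^ J * o) ^ 2 :=
    pow_le_pow_left₀ (nm_nonneg _ _) hfn 2
  refine s4.trans ?_
  rw [hA]
  have s5 : 2 * (a 0 + e * o) + b ^ J * o = 2 * a 0 + (2 * e + b ^ J) * o := by ring
  rw [s5]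
  have s6 := sq_nonneg (2 * a 0 - (2 * e + b ^ J) * o)
  nlinarith

end Pool.Agent.Q237.PL.Bl
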