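import Pool.Agent.Q295.PN.StmA

/-!
# Project PL: the longest chain of a Bernoulli grid is rarely short
-/

set_option autoImplicit false

namespace Pool.Agent.Q237.PL.Gl

open Finset Pool.Agent.Q295.PN

section

variable {ι : Type} [Fintype ι] [DecidableEq ι]

theorem wt_nonneg {p : ℝ} (hp : 0 ≤ p) (hp1 : p ≤ 1) (κ : ι → Bool) : 0 ≤ wt p κ := by
  unfold wt
  exact prod_nonneg fun i _ => by split_ifs <;> linarith

theorem Ex_mono {p : ℝ} (hp : 0 ≤ p) (hp1 : p ≤ 1) {f g : (ι → Bool) → ℝ}
    (h : ∀ κ, f κ ≤ g κ) : Ex p f ≤ Ex p g :=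
  sum_le_sum fun κ _ => mul_le_mul_of_nonneg_left (h κ) (wt_nonneg hp hp1 κ)

/-- probability that the points of `W` are closed -/
theorem Ex_closed (p : ℝ) (W : Finset ι) :
    Ex p (fun κ => if ∀ w ∈ W, κ w = false then (1 : ℝ) else 0) = (1 - p) ^ W.card := by
  unfold Ex wt
  have h1 : ∀ κ : ι → Bool, (∏ i, (if κ i = true then p else 1 - p)) *
      (if ∀ w ∈ W, κ w = false then (1 : ℝ) else 0) =
      ∏ i, ((if κ i = true then p else 1 - p) * (if i ∈ W ∧ κ i = true then 0 else 1)) := by
    intro κ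
    rw [prod_mul_distrib]
    congr 1
    split_ifs with h
    · symm
      refine prod_eq_one fun i _ => ?_
      rw [if_neg]
      rintro ⟨h2, h3⟩
      rw [h i h2] at h3
      exact Bool.noConfusion h3
    · push Not at h
      obtain ⟨w, hw, hw2⟩ := h
      symm
      refine prod_eq_zero (mem_univ w) ?_
      rw [if_pos]
      refine ⟨hw, ?_⟩
      cases hk : κ w
      · exact absurd hk hw2
      · rfl
  rw [sum_congr rfl fun κ _ => h1 κ]
  have h2 := Finset.prod_univ_sum (fun _ : ι => (univ : Finset Bool))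
    (fun (i : ι) (b : Bool) => (if b = true then p else 1 - p) * (if i ∈ W ∧ b = true then (0 : ℝ) else 1))
  rw [Fintype.piFinset_univ] at h2
  rw [← h2]
  have h3 : ∀ i : ι, ∑ b : Bool, (if b = true then p else 1 - p) *
      (if i ∈ W ∧ b = true then (0 : ℝ) else 1) = if i ∈ W then 1 - p else 1 := by
    intro i
    rw [Fintype.sum_bool]
    by_cases hi : i ∈ W
    · simp [hi]
    · simp [hi]
  rw [prod_congr rfl fun i _ => h3 i, prod_ite, prod_const_one, mul_one, prod_const]
  congr 2
  ext i
  simp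

end

/-- the points of the diagonal block `i` -/
def blk (N b i : ℕ) : Finset (Fin N × Fin N) :=
  (univ.filter fun x : Fin N => x.val / b = i) ×ˢ (univ.filter fun x : Fin N => x.val / b = i)

theorem card_blk (N b i : ℕ) (h : (i + 1) * b ≤ N) : b * b ≤ (blk N b i).card := by
  rcases Nat.eq_zero_or_pos b with hb | hb
  · rw [hb]
    exact Nat.zero_le _
  have h1 : b ≤ (univ.filter fun x : Fin N => x.val / b = i).card := by
    have hlt : ∀ j : Fin b, i * b + j.val < N := fun j => by
      have := j.2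
      have e : (i + 1) * b = i * b + b := by ring
      omega
    have h2 : (univ.image fun j : Fin b => (⟨i * b + j.val, hlt j⟩ : Fin N)).card = b := by
      rw [card_image_of_injective, card_univ, Fintype.card_fin]
      intro j k hjk
      have := congrArg Fin.val hjk
      simp only at this
      exact Fin.ext (by omega)
    calc b = (univ.image fun j : Fin b => (⟨i * b + j.val, hlt j⟩ : Fin N)).card := h2.symm
      _ ≤ _ := by
        refine card_le_card fun x hx => ?_
        obtain ⟨j, -, rfl⟩ := mem_image.1 hx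
        rw [mem_filter]
        refine ⟨mem_univ _, ?_⟩
        simp only
        rw [mul_comm i b, Nat.mul_add_div hb, Nat.div_eq_of_lt j.2, add_zero]
  unfold blk
  rw [card_product]
  exact Nat.mul_le_mul h1 h1

theorem blk_disj (N b : ℕ) {i j : ℕ} (h : i ≠ j) : Disjoint (blk N b i) (blk N b j) := by
  rw [disjoint_left]
  intro x h1 h2
  unfold blk at h1 h2
  rw [mem_product, mem_filter] at h1 h2
  exact h (h1.1.2.symm.trans h2.1.2)

theorem chain_blk {N b n : ℕ} (κ : Fin N × Fin N → Bool) (F : Finset ℕ)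
    (hF : ∀ i ∈ F, i < n ∧ ∃ w ∈ blk N b i, κ w = true) : F.card ≤ Lc κ := by
  classical
  rcases F.eq_empty_or_nonempty with hF0 | ⟨i₀, hi₀⟩
  · rw [hF0, card_empty]
    exact Nat.zero_le _
  obtain ⟨w₀, -, -⟩ := (hF i₀ hi₀).2
  haveI : Nonempty (Fin N × Fin N) := ⟨w₀⟩
  have hF' : ∀ i ∈ F, ∃ w : Fin N × Fin N, w ∈ blk N b i ∧ κ w = true := fun i hi => (hF i hi).2
  choose! w hw using hF'
  have hw1 : ∀ i ∈ F, w i ∈ blk N b i := fun i hi => (hw i hi).1
  have hw2 : ∀ i ∈ F, κ (w i) = true := fun i hi => (hw i hi).2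
  have hb : ∀ i ∈ F, (w i).1.val / b = i ∧ (w i).2.val / b = i := by
    intro i hi
    have := hw1 i hi
    unfold blk at this
    rw [mem_product, mem_filter, mem_filter] at this
    exact ⟨this.1.2, this.2.2⟩
  have hinj : Set.InjOn w (F : Set ℕ) := by
    intro i hi j hj h
    rw [← (hb i hi).1, h, (hb j hj).1]
  have hlt : ∀ i ∈ F, ∀ j ∈ F, i < j → w i ≤ w j := by
    intro i hi j hj hij
    have a := hb i hi
    have c := hb j hj
    constructor
    · by_contra hc
      push Not at hc
      have : (w j).1.val / b ≤ (w i).1.val / b := Nat.div_le_div_right (le_of_lt hc)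
      omega
    · by_contra hc
      push Not at hc
      have : (w j).2.val / b ≤ (w i).2.val / b := Nat.div_le_div_right (le_of_lt hc)
      omega
  have hcard : (F.image w).card = F.card := card_image_of_injOn hinj
  rw [← hcard]
  unfold Lc mc
  refine Finset.le_sup (f := Finset.card) ?_
  rw [mem_filter, mem_powerset]
  constructor
  · intro x hx
    obtain ⟨i, hi, rfl⟩ := mem_image.1 hx
    unfold op
    rw [mem_filter]
    exact ⟨mem_univ _, hw2 i hi⟩
  · intro x hx y hy hxy
    rw [mem_coe] at hx hy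
    obtain ⟨i, hi, rfl⟩ := mem_image.1 hx
    obtain ⟨j, hj, rfl⟩ := mem_image.1 hy
    rcases lt_trichotomy i j with h | h | h
    · exact Or.inl (hlt i hi j hj h)
    · exact absurd (by rw [h]) hxy
    · exact Or.inr (hlt j hj i hi h)

/-- the main estimate -/
theorem main (N b n k : ℕ) (p : ℝ) (hp : 0 < p) (hp1 : p ≤ 1) (hn : n * b ≤ N)
    (hb : 1 ≤ p * (b * b)) :
    Pr p (fun κ : Fin N × Fin N → Bool => Lc κ ≤ k) ≤
      Real.exp k * (2 * Real.exp (-1)) ^ n := by
  classical
  set W : Finset ℕ → Finset (Fin N × Fin N) := fun F => (range n \ F).biUnion (blk N b) with hW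
  have hcardW : ∀ F, b * b * (n - F.card) ≤ (W F).card := by
    intro F
    rw [hW]
    simp only
    rw [card_biUnion fun i _ j _ hij => blk_disj N b hij]
    have h1 : n - F.card ≤ (range n \ F).card := by
      have := le_card_sdiff F (range n)
      rwa [card_range] at this
    calc b * b * (n - F.card) ≤ b * b * (range n \ F).card := Nat.mul_le_mul_left _ h1
      _ = ∑ _i ∈ range n \ F, b * b := by rw [sum_const, smul_eq_mul, mul_comm]
      _ ≤ ∑ i ∈ range n \ F, (blk N b i).card := by
        refine sum_le_sum fun i hi => card_blk N b i ?_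
        rw [mem_sdiff, mem_range] at hi
        exact (Nat.mul_le_mul_right b hi.1).trans hn
  have hprob : ∀ F ⊆ range n, (1 - p) ^ (W F).card ≤ Real.exp (-1) ^ (n - F.card) := by
    intro F hF
    have h0 : 0 ≤ 1 - p := by linarith
    calc (1 - p) ^ (W F).card ≤ (1 - p) ^ (b * b * (n - F.card)) :=
          pow_le_pow_of_le_one h0 (by linarith) (hcardW F)
      _ = ((1 - p) ^ (b * b)) ^ (n - F.card) := by rw [pow_mul]
      _ ≤ (Real.exp (-1)) ^ (n - F.card) := by
        refine pow_le_pow_left₀ (pow_nonneg h0 _) ?_ _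
        calc (1 - p) ^ (b * b) ≤ (Real.exp (-p)) ^ (b * b) :=
              pow_le_pow_left₀ h0 (Real.one_sub_le_exp_neg p) _
          _ = Real.exp (-(p * (b * b))) := by
              rw [← Real.exp_nat_mul]
              congr 1
              push_cast
              ring
          _ ≤ Real.exp (-1) := Real.exp_le_exp.2 (by linarith)
  have hE : (Real.exp (-1) + Real.exp (-1)) ^ n =
      ∑ F ∈ (range n).powerset, Real.exp (-1) ^ F.card * Real.exp (-1) ^ (n - F.card) := by
    have := Finset.sum_pow_mul_eq_add_pow (Real.exp (-1)) (Real.exp (-1)) (range n)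
    rw [card_range] at this
    exact this.symm
  -- union bound
  have hpt : ∀ κ : Fin N × Fin N → Bool, (if Lc κ ≤ k then (1 : ℝ) else 0) ≤
      ∑ F ∈ (range n).powerset, Real.exp k * Real.exp (-1) ^ F.card *
        (if ∀ w ∈ W F, κ w = false then (1 : ℝ) else 0) := by
    intro κ
    have hnn : ∀ F ∈ (range n).powerset, 0 ≤ Real.exp k * Real.exp (-1) ^ F.card *
        (if ∀ w ∈ W F, κ w = false then (1 : ℝ) else 0) := by
      intro F _
      refine mul_nonneg (by positivity) ?_
      split_ifs <;> norm_num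
    split_ifs with h
    · set F := (range n).filter fun i => ∃ w ∈ blk N b i, κ w = true with hF
      have h1 : F.card ≤ k := (chain_blk (n := n) (b := b) κ F (fun i hi => by
        rw [hF, mem_filter, mem_range] at hi
        exact hi)).trans h
      have h2 : ∀ w ∈ W F, κ w = false := by
        intro w hw
        rw [hW] at hw
        simp only at hw
        rw [mem_biUnion] at hw
        obtain ⟨i, hi, hw⟩ := hw
        rw [mem_sdiff, hF, mem_filter] at hi
        cases hk : κ w
        · rfl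
        · exact absurd ⟨hi.1, w, hw, hk⟩ hi.2
      refine le_trans ?_ (single_le_sum hnn (mem_powerset.2 (filter_subset _ _) : F ∈ _))
      rw [if_pos h2, mul_one, ← Real.exp_nat_mul, ← Real.exp_add]
      have h3 : (F.card : ℝ) ≤ k := by exact_mod_cast h1
      exact Real.one_le_exp (by linarith)
    · exact sum_nonneg hnn
  have h10 : Pr p (fun κ : Fin N × Fin N → Bool => Lc κ ≤ k) =
      Ex p (fun κ : Fin N × Fin N → Bool => if Lc κ ≤ k then (1 : ℝ) else 0) := by
    unfold Pr
    refine congrArg (Ex p) (funext fun κ => ?_)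
    by_cases h : Lc κ ≤ k
    · rw [if_pos h, if_pos h]
    · rw [if_neg h, if_neg h]
  rw [h10]
  refine (Ex_mono hp.le hp1 hpt).trans ?_
  have h11 : Ex p (fun κ : Fin N × Fin N → Bool => ∑ F ∈ (range n).powerset,
      Real.exp k * Real.exp (-1) ^ F.card * (if ∀ w ∈ W F, κ w = false then (1 : ℝ) else 0)) =
      ∑ F ∈ (range n).powerset, Real.exp k * Real.exp (-1) ^ F.card * (1 - p) ^ (W F).card := by
    unfold Ex
    simp only [mul_sum]
    rw [sum_comm]
    refine sum_congr rfl fun F _ => ?_
    rw [← Ex_closed p (W F)]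
    unfold Ex
    rw [mul_sum]
    exact sum_congr rfl fun κ _ => by ring
  rw [h11, two_mul, hE, mul_sum]
  refine sum_le_sum fun F hF => ?_
  rw [mul_assoc]
  refine mul_le_mul_of_nonneg_left ?_ (Real.exp_pos _).le
  exact mul_le_mul_of_nonneg_left (hprob F (mem_powerset.1 hF)) (by positivity)

theorem gl : S_GL := by
  intro k A
  set γ : ℝ := 1 - Real.log 2 with hγ
  have hγ0 : 0 < γ := by
    have := Real.log_two_lt_d9
    rw [hγ]
    linarith
  have hlo := (Real.isLittleO_log_id_atTop).def
    (show 0 < γ / (4 * (|A| + 1)) by positivity)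
  obtain ⟨x₀, hx₀⟩ := Filter.eventually_atTop.1 hlo
  refine ⟨max (max x₀ 1) (4 * (k + γ) / γ), le_trans (le_max_right _ _) (le_max_left _ _), ?_⟩
  intro N p hp hp1 hν
  set ν : ℝ := N * Real.sqrt p with hνdef
  have n1 : x₀ ≤ ν := le_trans (le_trans (le_max_left _ _) (le_max_left _ _)) hν
  have n2 : 1 ≤ ν := le_trans (le_trans (le_max_right _ _) (le_max_left _ _)) hν
  have n3 : 4 * (k + γ) / γ ≤ ν := le_trans (le_max_right _ _) hν
  have hl := hx₀ ν n1
  have hlog : 0 ≤ Real.log ν := Real.log_nonneg n2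
  rw [Real.norm_of_nonneg hlog, id, Real.norm_of_nonneg (by linarith)] at hl
  have hs : 0 < Real.sqrt p := Real.sqrt_pos.2 hp
  have hs1 : Real.sqrt p ≤ 1 / 4 := by
    rw [Real.sqrt_le_left (by norm_num)]
    linarith
  obtain ⟨b, hb⟩ : ∃ b : ℕ, b = ⌈1 / Real.sqrt p⌉₊ := ⟨_, rfl⟩
  have b1 : 1 / Real.sqrt p ≤ b := by rw [hb]; exact Nat.le_ceil _
  have b2 : (b : ℝ) ≤ 2 / Real.sqrt p := by
    have h1 := Nat.ceil_lt_add_one (show 0 ≤ 1 / Real.sqrt p by positivity)
    rw [← hb] at h1
    have h2 : 1 ≤ 1 / Real.sqrt p := by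
      rw [le_div_iff₀ hs]
      linarith
    have h3 : 2 / Real.sqrt p = 1 / Real.sqrt p + 1 / Real.sqrt p := by ring
    linarith
  have hb0 : (0 : ℝ) < b := lt_of_lt_of_le (by positivity) b1
  have hb0' : 0 < b := by exact_mod_cast hb0
  have hpb : 1 ≤ p * ((b : ℝ) * b) := by
    have h1 : 1 ≤ Real.sqrt p * b := by
      rw [div_le_iff₀ hs] at b1
      linarith
    have h2 : p * ((b : ℝ) * b) = (Real.sqrt p * b) * (Real.sqrt p * b) := by
      have : Real.sqrt p * Real.sqrt p = p := Real.mul_self_sqrt hp.le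
      calc p * ((b : ℝ) * b) = (Real.sqrt p * Real.sqrt p) * ((b : ℝ) * b) := by rw [this]
        _ = _ := by ring
    rw [h2]
    nlinarith
  have hm := main N b (N / b) k p hp (by linarith) (Nat.div_mul_le_self N b) hpb
  refine hm.trans ?_
  have hn : ν / 2 - 1 ≤ ((N / b : ℕ) : ℝ) := by
    have h1 : (N : ℝ) < ((N / b : ℕ) : ℝ) * b + b := by
      have : N < N / b * b + b := by
        have := Nat.div_add_mod N b
        have h2 := Nat.mod_lt N hb0'
        have h3 : b * (N / b) = N / b * b := mul_comm _ _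
        omega
      exact_mod_cast this
    have h2 : ν / 2 * b ≤ N := by
      have h3 : ν / 2 * b ≤ ν / 2 * (2 / Real.sqrt p) :=
        mul_le_mul_of_nonneg_left b2 (by linarith)
      have h4 : ν / 2 * (2 / Real.sqrt p) = N := by
        rw [hνdef]
        field_simp
      linarith
    have h5 : ν / 2 * b < (((N / b : ℕ) : ℝ) + 1) * b := by
      rw [add_mul, one_mul]
      linarith
    have := lt_of_mul_lt_mul_right h5 hb0.le
    linarith
  have e1 : 2 * Real.exp (-1) = Real.exp (-γ) := by
    rw [hγ, show -(1 - Real.log 2) = Real.log 2 + (-1) by ring, Real.exp_add,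
      Real.exp_log (by norm_num)]
  rw [e1, ← Real.exp_nat_mul, ← Real.exp_add, Real.rpow_def_of_pos (by linarith)]
  refine Real.exp_le_exp.2 ?_
  have f1 : (ν / 2 - 1) * γ ≤ ((N / b : ℕ) : ℝ) * γ := mul_le_mul_of_nonneg_right hn hγ0.le
  have f2 : |A| * Real.log ν ≤ γ * ν / 4 := by
    have g1 : (|A| + 1) * Real.log ν ≤ (|A| + 1) * (γ / (4 * (|A| + 1)) * ν) :=
      mul_le_mul_of_nonneg_left hl (by positivity)
    have g2 : (|A| + 1) * (γ / (4 * (|A| + 1)) * ν) = γ * ν / 4 := by
      have : |A| + 1 ≠ 0 := by positivity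
      field_simp
    rw [g2] at g1
    nlinarith
  have f3 : k + γ ≤ γ * ν / 4 := by
    rw [div_le_iff₀ hγ0] at n3
    linarith
  have f4 : -(|A| * Real.log ν) ≤ Real.log ν * (-A) := by
    have := le_abs_self A
    nlinarith
  have f5 : ((N / b : ℕ) : ℝ) * -γ = -(((N / b : ℕ) : ℝ) * γ) := by ring
  rw [f5]
  linarith

end Pool.Agent.Q237.PL.Gl
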