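import Pool.Agent.Q295.PN.StmA

/-!
# Project PL: row and column sums of the kernel on the grid
-/

set_option autoImplicit false

namespace Pool.Agent.Q237.PL.Gv

open Finset Pool.Agent.Q295.PN

/-- primitive of `min (1/s) (1/t)` -/
noncomputable def g (s t : ℝ) : ℝ := if t ≤ s then t / s else 1 + Real.log (t / s)

theorem g_step {s : ℝ} (hs : 0 < s) (n : ℕ) :
    min (1 / s) (1 / ((n : ℝ) + 1)) ≤ g s ((n : ℝ) + 1) - g s n := by
  have hn : (0 : ℝ) ≤ n := Nat.cast_nonneg n
  unfold g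
  by_cases h1 : (n : ℝ) + 1 ≤ s
  · rw [if_pos h1, if_pos (by linarith)]
    refine (min_le_left _ _).trans (le_of_eq ?_)
    ring
  · rw [if_neg h1]
    push Not at h1
    by_cases h2 : (n : ℝ) ≤ s
    · rw [if_pos h2]
      refine (min_le_right _ _).trans ?_
      have hl : 1 - s / ((n : ℝ) + 1) ≤ Real.log (((n : ℝ) + 1) / s) := by
        have := Real.one_sub_inv_le_log_of_pos (x := ((n : ℝ) + 1) / s) (by positivity)
        rwa [inv_div] at this
      have key : 1 / ((n : ℝ) + 1) ≤ 2 - s / ((n : ℝ) + 1) - n / s := by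
        have h3 : 2 - s / ((n : ℝ) + 1) - n / s - 1 / ((n : ℝ) + 1) =
            (((n : ℝ) + 1 - s) * (s - n)) / (((n : ℝ) + 1) * s) := by
          field_simp
          ring
        have h4 : 0 ≤ (((n : ℝ) + 1 - s) * (s - n)) / (((n : ℝ) + 1) * s) :=
          div_nonneg (mul_nonneg (by linarith) (by linarith)) (by positivity)
        linarith
      linarith
    · rw [if_neg h2]
      push Not at h2
      have hn0 : (0 : ℝ) < n := lt_trans hs h2
      refine (min_le_right _ _).trans ?_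
      have hl : 1 / ((n : ℝ) + 1) ≤ Real.log (((n : ℝ) + 1) / n) := by
        have := Real.one_sub_inv_le_log_of_pos (x := ((n : ℝ) + 1) / n) (by positivity)
        refine le_trans (le_of_eq ?_) this
        rw [inv_div]
        field_simp
        ring
      rw [Real.log_div (by positivity) hn0.ne'] at hl
      rw [Real.log_div (by positivity) hs.ne', Real.log_div hn0.ne' hs.ne']
      linarith

theorem sum_min {s : ℝ} (hs : 0 < s) (n : ℕ) :
    ∑ a ∈ range n, min (1 / s) (1 / ((a : ℝ) + 1)) ≤ 1 + Real.log (1 + n / s) := by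
  have h1 : ∑ a ∈ range n, min (1 / s) (1 / ((a : ℝ) + 1)) ≤ g s n := by
    induction n with
    | zero =>
      unfold g
      simp [hs.le]
    | succ n ih =>
      rw [sum_range_succ]
      have := g_step hs n
      push_cast
      linarith
  refine h1.trans ?_
  have hn : (0 : ℝ) ≤ n := Nat.cast_nonneg n
  have hl : 0 ≤ Real.log (1 + n / s) := Real.log_nonneg (by
    have : 0 ≤ (n : ℝ) / s := by positivity
    linarith)
  unfold g
  split_ifs with h
  · have : (n : ℝ) / s ≤ 1 := (div_le_one hs).2 h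
    linarith
  · push Not at h
    have h0 : 0 < (n : ℝ) / s := div_pos (by linarith) hs
    have := Real.log_le_log h0 (by linarith : (n : ℝ) / s ≤ 1 + n / s)
    linarith

theorem card_lt (X : ℝ) (hX : 0 ≤ X) (N : ℕ) :
    (((Ico 1 N).filter fun b : ℕ => (b : ℝ) < X).card : ℝ) ≤ X := by
  have h1 : ((Ico 1 N).filter fun b : ℕ => (b : ℝ) < X) ⊆ Ico 1 ⌈X⌉₊ := by
    intro b hb
    rw [mem_filter, mem_Ico] at hb
    rw [mem_Ico]
    exact ⟨hb.1.1, Nat.lt_ceil.2 hb.2⟩
  have h2 := card_le_card h1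
  rw [Nat.card_Ico] at h2
  have h3 := Nat.ceil_lt_add_one hX
  rcases Nat.eq_zero_or_pos ⌈X⌉₊ with h | h
  · rw [h] at h2
    have : ((Ico 1 N).filter fun b : ℕ => (b : ℝ) < X).card = 0 := by omega
    rw [this]
    simpa using hX
  · have h4 : ((Ico 1 N).filter fun b : ℕ => (b : ℝ) < X).card + 1 ≤ ⌈X⌉₊ := by omega
    have h5 : (((Ico 1 N).filter fun b : ℕ => (b : ℝ) < X).card : ℝ) + 1 ≤ ⌈X⌉₊ := by
      exact_mod_cast h4
    linarith

/-- the admissible differences -/
def U (N : ℕ) (p c : ℝ) : Set (ℕ × ℕ) :=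
  {q | q.1 < N ∧ q.2 < N ∧ (1 ≤ q.1 → 1 ≤ q.2 → p * ((q.1 : ℝ) * q.2) < c)}

theorem card_T (N : ℕ) (p c : ℝ) (hp : 0 < p) (hc : 0 < c) (T : Finset (ℕ × ℕ))
    (hT : ∀ q ∈ T, q ∈ U N p c) :
    p * T.card ≤ 2 * N * p + c * (2 + Real.log (1 + N ^ 2 * p / c)) := by
  classical
  rcases Nat.eq_zero_or_pos N with hN0 | hN
  · have : T = ∅ := by
      rw [eq_empty_iff_forall_notMem]
      intro q hq
      have := (hT q hq).1
      omega
    rw [this, hN0]
    simp
    positivity
  have hN' : (0 : ℝ) < N := by exact_mod_cast hN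
  set A : Finset (ℕ × ℕ) := (range N).image fun b => (0, b) with hA
  set B : Finset (ℕ × ℕ) := (range N).image fun a => (a, 0) with hB
  set C : Finset (ℕ × ℕ) := (Ico 1 N).biUnion fun a =>
    ((Ico 1 N).filter fun b : ℕ => (b : ℝ) < c / (p * a)).image fun b => (a, b) with hC
  have hsub : T ⊆ A ∪ B ∪ C := by
    rintro ⟨a, b⟩ hq
    obtain ⟨h1, h2, h3⟩ := hT _ hq
    simp only at h1 h2 h3
    rw [mem_union, mem_union]
    rcases Nat.eq_zero_or_pos a with ha | ha
    · left; left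
      rw [hA, mem_image]
      exact ⟨b, mem_range.2 h2, by rw [ha]⟩
    · rcases Nat.eq_zero_or_pos b with hb | hb
      · left; right
        rw [hB, mem_image]
        exact ⟨a, mem_range.2 h1, by rw [hb]⟩
      · right
        rw [hC, mem_biUnion]
        refine ⟨a, mem_Ico.2 ⟨ha, h1⟩, mem_image.2 ⟨b, ?_, rfl⟩⟩
        rw [mem_filter, mem_Ico]
        refine ⟨⟨hb, h2⟩, ?_⟩
        have h4 := h3 ha hb
        have ha' : (0 : ℝ) < a := by exact_mod_cast ha
        rw [lt_div_iff₀ (by positivity)]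
        linarith
  have c1 : T.card ≤ A.card + B.card + C.card :=
    (card_le_card hsub).trans ((card_union_le _ _).trans (Nat.add_le_add_right (card_union_le _ _) _))
  have cA : A.card ≤ N := (card_image_le).trans (by rw [card_range])
  have cB : B.card ≤ N := (card_image_le).trans (by rw [card_range])
  have cC : C.card ≤ ∑ a ∈ Ico 1 N, ((Ico 1 N).filter fun b : ℕ => (b : ℝ) < c / (p * a)).card :=
    card_biUnion_le.trans (sum_le_sum fun a _ => card_image_le)
  set s : ℝ := c / (p * N) with hs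
  have hs0 : 0 < s := by positivity
  have key : ∀ a ∈ Ico 1 N, p * (((Ico 1 N).filter fun b : ℕ => (b : ℝ) < c / (p * a)).card : ℝ) ≤
      c * min (1 / s) (1 / (a : ℝ)) := by
    intro a ha
    rw [mem_Ico] at ha
    have ha' : (0 : ℝ) < a := by exact_mod_cast ha.1
    rw [mul_min_of_nonneg _ _ hc.le]
    refine le_min ?_ ?_
    · have h1 : (((Ico 1 N).filter fun b : ℕ => (b : ℝ) < c / (p * a)).card : ℝ) ≤ N := by
        have : ((Ico 1 N).filter fun b : ℕ => (b : ℝ) < c / (p * a)).card ≤ N :=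
          (card_filter_le _ _).trans (by rw [Nat.card_Ico]; omega)
        exact_mod_cast this
      calc p * (((Ico 1 N).filter fun b : ℕ => (b : ℝ) < c / (p * a)).card : ℝ) ≤ p * N :=
            mul_le_mul_of_nonneg_left h1 hp.le
        _ = c * (1 / s) := by rw [hs]; field_simp
    · calc p * (((Ico 1 N).filter fun b : ℕ => (b : ℝ) < c / (p * a)).card : ℝ)
          ≤ p * (c / (p * a)) := mul_le_mul_of_nonneg_left (card_lt _ (by positivity) N) hp.le
        _ = c * (1 / a) := by field_simp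
  have hsum : p * (C.card : ℝ) ≤ c * (1 + Real.log (1 + N / s)) := by
    have h1 : (C.card : ℝ) ≤ ∑ a ∈ Ico 1 N,
        (((Ico 1 N).filter fun b : ℕ => (b : ℝ) < c / (p * a)).card : ℝ) := by
      exact_mod_cast cC
    calc p * (C.card : ℝ) ≤ p * ∑ a ∈ Ico 1 N,
          (((Ico 1 N).filter fun b : ℕ => (b : ℝ) < c / (p * a)).card : ℝ) :=
          mul_le_mul_of_nonneg_left h1 hp.le
      _ = ∑ a ∈ Ico 1 N, p * (((Ico 1 N).filter fun b : ℕ => (b : ℝ) < c / (p * a)).card : ℝ) := by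
          rw [mul_sum]
      _ ≤ ∑ a ∈ Ico 1 N, c * min (1 / s) (1 / (a : ℝ)) := sum_le_sum key
      _ = c * ∑ a ∈ Ico 1 N, min (1 / s) (1 / (a : ℝ)) := by rw [mul_sum]
      _ ≤ c * (1 + Real.log (1 + N / s)) := by
          refine mul_le_mul_of_nonneg_left ?_ hc.le
          rw [sum_Ico_eq_sum_range]
          have h2 : ∑ a ∈ range (N - 1), min (1 / s) (1 / ((1 + a : ℕ) : ℝ)) =
              ∑ a ∈ range (N - 1), min (1 / s) (1 / ((a : ℝ) + 1)) :=
            sum_congr rfl fun a _ => by push_cast; rw [add_comm]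
          rw [h2]
          refine le_trans (sum_le_sum_of_subset_of_nonneg (range_mono (Nat.sub_le N 1))
            fun a _ _ => le_min (by positivity) (by positivity)) (sum_min hs0 N)
  have hx : (N : ℝ) / s = N ^ 2 * p / c := by rw [hs]; field_simp
  rw [hx] at hsum
  have hT1 : (T.card : ℝ) ≤ N + N + C.card := by
    have : T.card ≤ N + N + C.card := by omega
    exact_mod_cast this
  calc p * (T.card : ℝ) ≤ p * (N + N + C.card) := mul_le_mul_of_nonneg_left hT1 hp.le
    _ = 2 * N * p + p * C.card := by ring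
    _ ≤ 2 * N * p + c * (1 + Real.log (1 + N ^ 2 * p / c)) := by linarith
    _ ≤ _ := by nlinarith

theorem bt_ge {N : ℕ} (y z : Fin N × Fin N) (h1 : y.1 ≤ z.1) (h2 : y.2 ≤ z.2) :
    ((z.1 : ℕ) - y.1) * ((z.2 : ℕ) - y.2) ≤ bt y z := by
  classical
  have h3 : (Ioc y.1 z.1 ×ˢ Ico y.2 z.2).card = ((z.1 : ℕ) - y.1) * ((z.2 : ℕ) - y.2) := by
    rw [card_product, Fin.card_Ioc, Fin.card_Ico]
  rw [← h3]
  unfold bt
  refine card_le_card fun w hw => ?_
  rw [mem_product, mem_Ioc, mem_Ico] at hw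
  rw [mem_filter]
  obtain ⟨⟨a1, a2⟩, a3, a4⟩ := hw
  refine ⟨mem_univ _, ?_, ?_⟩
  · refine lt_of_le_of_ne ⟨a1.le, a3⟩ fun h => ?_
    rw [h] at a1
    exact lt_irrefl _ a1
  · refine lt_of_le_of_ne ⟨a2, a4.le⟩ fun h => ?_
    rw [h] at a4
    exact lt_irrefl _ a4

theorem diff_mem {N : ℕ} {p c : ℝ} (hp : 0 < p) (y z : Fin N × Fin N) (h : y < z)
    (hb : p * (bt y z : ℝ) < c) : ((z.1 : ℕ) - y.1, (z.2 : ℕ) - y.2) ∈ U N p c := by
  refine ⟨?_, ?_, ?_⟩
  · exact lt_of_le_of_lt (Nat.sub_le _ _) z.1.2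
  · exact lt_of_le_of_lt (Nat.sub_le _ _) z.2.2
  · intro _ _
    have h1 := bt_ge y z h.le.1 h.le.2
    have h2 : ((((z.1 : ℕ) - y.1 : ℕ) : ℝ) * (((z.2 : ℕ) - y.2 : ℕ) : ℝ)) ≤ bt y z := by
      exact_mod_cast h1
    exact lt_of_le_of_lt (mul_le_mul_of_nonneg_left h2 hp.le) hb

theorem gv : S_GV := by
  classical
  intro N p c hp _ hc
  constructor
  · intro y
    set S : Finset (Fin N × Fin N) := univ.filter fun z => y < z ∧ p * (bt y z : ℝ) < c with hS
    have e1 : ∑ z, kk p c y z = p * S.card := by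
      unfold kk
      rw [hS, ← sum_filter, sum_const, nsmul_eq_mul, mul_comm]
    have e2 : (S.image fun z => ((z.1 : ℕ) - (y.1 : ℕ), (z.2 : ℕ) - (y.2 : ℕ))).card = S.card := by
      refine card_image_of_injOn fun z hz w hw hzw => ?_
      rw [mem_coe, hS, mem_filter] at hz hw
      have a1 : (y.1 : ℕ) ≤ z.1 := hz.2.1.le.1
      have a2 : (y.2 : ℕ) ≤ z.2 := hz.2.1.le.2
      have a3 : (y.1 : ℕ) ≤ w.1 := hw.2.1.le.1
      have a4 : (y.2 : ℕ) ≤ w.2 := hw.2.1.le.2
      simp only [Prod.mk.injEq] at hzw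
      refine Prod.ext (Fin.ext ?_) (Fin.ext ?_) <;> omega
    rw [e1, ← e2]
    refine card_T N p c hp hc _ fun q hq => ?_
    obtain ⟨z, hz, rfl⟩ := mem_image.1 hq
    rw [hS, mem_filter] at hz
    exact diff_mem hp y z hz.2.1 hz.2.2
  · intro z
    set S : Finset (Fin N × Fin N) := univ.filter fun y => y < z ∧ p * (bt y z : ℝ) < c with hS
    have e1 : ∑ y, kk p c y z = p * S.card := by
      unfold kk
      rw [hS, ← sum_filter, sum_const, nsmul_eq_mul, mul_comm]
    have e2 : (S.image fun y => ((z.1 : ℕ) - (y.1 : ℕ), (z.2 : ℕ) - (y.2 : ℕ))).card = S.card := by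
      refine card_image_of_injOn fun y hy w hw hyw => ?_
      rw [mem_coe, hS, mem_filter] at hy hw
      have a1 : (y.1 : ℕ) ≤ z.1 := hy.2.1.le.1
      have a2 : (y.2 : ℕ) ≤ z.2 := hy.2.1.le.2
      have a3 : (w.1 : ℕ) ≤ z.1 := hw.2.1.le.1
      have a4 : (w.2 : ℕ) ≤ z.2 := hw.2.1.le.2
      simp only [Prod.mk.injEq] at hyw
      refine Prod.ext (Fin.ext ?_) (Fin.ext ?_) <;> omega
    rw [e1, ← e2]
    refine card_T N p c hp hc _ fun q hq => ?_
    obtain ⟨y, hy, rfl⟩ := mem_image.1 hq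
    rw [hS, mem_filter] at hy
    exact diff_mem hp y z hy.2.1 hy.2.2

end Pool.Agent.Q237.PL.Gv
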